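import Mathlib
import Pool.Agent.K4H25.FH.Spec

/-! The matrix identity of the reduction to contrasts (helper47 for helper25, MP_0e0306_pr). -/

set_option autoImplicit false

namespace Pool.Agent.K4H47.FHRed

open Matrix Finset

/-- the difference matrix: `(D x)_i = x_{i+1} - x_i` -/
def D (N : ℕ) : Matrix (Fin N) (Fin (N + 1)) ℝ :=
  Matrix.of fun i j => (if j = i.succ then 1 else 0) - (if j = i.castSucc then 1 else 0)

theorem D_mul {N : ℕ} {α : Type} [Fintype α] (K : Matrix (Fin (N + 1)) α ℝ) (i : Fin N) (j : α) :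
    (D N * K) i j = K i.succ j - K i.castSucc j := by
  simp [Matrix.mul_apply, D, sub_mul, Finset.sum_sub_distrib]

theorem mul_Dt {N : ℕ} {α : Type} [Fintype α] (K : Matrix α (Fin (N + 1)) ℝ) (i : α) (j : Fin N) :
    (K * (D N)ᵀ) i j = K i j.succ - K i j.castSucc := by
  simp [Matrix.mul_apply, D, mul_sub, Finset.sum_sub_distrib]

theorem DKDt {N : ℕ} (K : Matrix (Fin (N + 1)) (Fin (N + 1)) ℝ) (i j : Fin N) :
    (D N * K * (D N)ᵀ) i j = K i.succ j.succ - K i.castSucc j.succ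
      - (K i.succ j.castSucc - K i.castSucc j.castSucc) := by
  rw [mul_Dt, D_mul, D_mul]

theorem D_one (N : ℕ) : D N *ᵥ (fun _ => 1) = 0 := by
  funext i
  simp [Matrix.mulVec, dotProduct, D, Finset.sum_sub_distrib]

/-- the contrast matrix of a shifted Toeplitz matrix is a shifted Toeplitz matrix -/
theorem D_Sh (g : ℤ → ℝ) (N k : ℕ) :
    D N * Pool.Agent.K4H25.FH.Sh g (N + 1) k * (D N)ᵀ
      = Pool.Agent.K4H25.FH.Sh (fun j => 2 * g j - g (j + 1) - g (j - 1)) N k := by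
  ext i j
  rw [DKDt]
  simp only [Pool.Agent.K4H25.FH.Sh, Matrix.of_apply, Fin.val_succ, Fin.val_castSucc,
    Nat.cast_add, Nat.cast_one]
  rw [show ((i : ℕ) : ℤ) + 1 - (((j : ℕ) : ℤ) + 1) + (k : ℤ) = ((i : ℕ) : ℤ) - ((j : ℕ) : ℤ) + k
      by ring,
    show ((i : ℕ) : ℤ) - (((j : ℕ) : ℤ) + 1) + (k : ℤ) = ((i : ℕ) : ℤ) - ((j : ℕ) : ℤ) + k - 1
      by ring,
    show ((i : ℕ) : ℤ) + 1 - ((j : ℕ) : ℤ) + (k : ℤ) = ((i : ℕ) : ℤ) - ((j : ℕ) : ℤ) + k + 1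
      by ring]
  ring

theorem D_Sg (g : ℤ → ℝ) (N : ℕ) :
    D N * Pool.Agent.K4H25.FH.Sg g (N + 1) * (D N)ᵀ
      = Pool.Agent.K4H25.FH.Sg (fun j => 2 * g j - g (j + 1) - g (j - 1)) N := by
  ext i j
  rw [DKDt]
  simp only [Pool.Agent.K4H25.FH.Sg, Matrix.of_apply, Fin.val_succ, Fin.val_castSucc,
    Nat.cast_add, Nat.cast_one]
  rw [show ((i : ℕ) : ℤ) + 1 - (((j : ℕ) : ℤ) + 1) = ((i : ℕ) : ℤ) - ((j : ℕ) : ℤ)
      by ring,
    show ((i : ℕ) : ℤ) - (((j : ℕ) : ℤ) + 1) = ((i : ℕ) : ℤ) - ((j : ℕ) : ℤ) - 1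
      by ring,
    show ((i : ℕ) : ℤ) + 1 - ((j : ℕ) : ℤ) = ((i : ℕ) : ℤ) - ((j : ℕ) : ℤ) + 1
      by ring]
  ring

section

variable {N : ℕ} (S : Matrix (Fin (N + 1)) (Fin (N + 1)) ℝ) (u : Fin (N + 1) → ℝ) (τ : ℝ)

/-- `S⁻¹ = Dᵀ Z⁻¹ D + u uᵀ / τ`, where `Z = D S Dᵀ`, `S u = 1`, `τ = 1ᵀ u` -/
theorem inv_eq (hS : Sᵀ = S) (hZ : IsUnit (D N * S * (D N)ᵀ)) (hu : S *ᵥ u = fun _ => 1)
    (hτ : ∑ i, u i = τ) (hτ0 : τ ≠ 0) :
    S⁻¹ = (D N)ᵀ * (D N * S * (D N)ᵀ)⁻¹ * D N + τ⁻¹ • vecMulVec u u := by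
  apply Matrix.inv_eq_left_inv
  set Z := D N * S * (D N)ᵀ with hZdef
  set R := (D N)ᵀ * Z⁻¹ * D N + τ⁻¹ • vecMulVec u u with hR
  have hZ' : IsUnit Z.det := (Matrix.isUnit_iff_isUnit_det Z).1 hZ
  have huS : u ᵥ* S = fun _ => 1 := by
    rw [← hS, Matrix.vecMul_transpose, hu]
  have h1 : (R * S - 1) * (D N)ᵀ = 0 := by
    rw [Matrix.sub_mul, Matrix.one_mul, hR, Matrix.add_mul, Matrix.add_mul, Matrix.smul_mul,
      Matrix.smul_mul, Matrix.vecMulVec_mul, huS, Matrix.vecMulVec_mul, Matrix.vecMul_transpose,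
      D_one]
    have : (D N)ᵀ * Z⁻¹ * D N * S * (D N)ᵀ = (D N)ᵀ * (Z⁻¹ * Z) := by
      rw [hZdef]
      simp only [Matrix.mul_assoc]
    rw [this, Matrix.nonsing_inv_mul _ hZ', Matrix.mul_one]
    have hz : vecMulVec u (0 : Fin N → ℝ) = 0 := by
      ext i j
      simp [Matrix.vecMulVec_apply]
    rw [hz, smul_zero, add_zero, sub_self]
  have h2 : (R * S - 1) *ᵥ u = 0 := by
    rw [Matrix.sub_mulVec, Matrix.one_mulVec, ← Matrix.mulVec_mulVec, hu, hR, Matrix.add_mulVec,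
      ← Matrix.mulVec_mulVec, D_one, Matrix.mulVec_zero, zero_add, Matrix.smul_mulVec]
    funext i
    simp only [Pi.sub_apply, Pi.smul_apply, smul_eq_mul, Matrix.mulVec, dotProduct,
      Matrix.vecMulVec_apply, Pi.zero_apply, mul_one]
    rw [← Finset.mul_sum, hτ]
    field_simp
    ring
  have h3 : R * S - 1 = 0 := by
    ext i j
    have hc : ∀ j : Fin (N + 1), (R * S - 1) i j = (R * S - 1) i 0 := by
      intro j
      induction j using Fin.induction with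
      | zero => rfl
      | succ j ih =>
        have := congrFun (congrFun h1 i) j
        rw [mul_Dt] at this
        simp only [Matrix.zero_apply] at this
        rw [← ih]
        linarith
    have h4 := congrFun h2 i
    simp only [Matrix.mulVec, dotProduct, Pi.zero_apply] at h4
    rw [Finset.sum_congr rfl fun j _ => by rw [hc j], ← Finset.mul_sum, hτ] at h4
    rw [hc j]
    simp only [Matrix.zero_apply]
    exact (mul_eq_zero.1 h4).resolve_right hτ0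
  exact sub_eq_zero.1 h3

theorem trace_vec (K : Matrix (Fin (N + 1)) (Fin (N + 1)) ℝ) :
    (vecMulVec u u * K).trace = u ⬝ᵥ K *ᵥ u := by
  rw [Matrix.vecMulVec_mul, Matrix.trace_vecMulVec, Matrix.dotProduct_mulVec, dotProduct_comm]

/-- the trace of `S⁻¹ K` -/
theorem trace_one (hS : Sᵀ = S) (hZ : IsUnit (D N * S * (D N)ᵀ)) (hu : S *ᵥ u = fun _ => 1)
    (hτ : ∑ i, u i = τ) (hτ0 : τ ≠ 0) (K : Matrix (Fin (N + 1)) (Fin (N + 1)) ℝ) :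
    (S⁻¹ * K).trace = ((D N * S * (D N)ᵀ)⁻¹ * (D N * K * (D N)ᵀ)).trace
      + τ⁻¹ * (u ⬝ᵥ K *ᵥ u) := by
  rw [inv_eq S u τ hS hZ hu hτ hτ0, Matrix.add_mul, Matrix.trace_add, Matrix.smul_mul,
    Matrix.trace_smul, smul_eq_mul, trace_vec]
  congr 1
  rw [Matrix.mul_assoc, Matrix.mul_assoc, Matrix.trace_mul_comm, Matrix.mul_assoc]

/-- the trace of `S⁻¹ K S⁻¹ L` -/
theorem trace_two (hS : Sᵀ = S) (hZ : IsUnit (D N * S * (D N)ᵀ)) (hu : S *ᵥ u = fun _ => 1)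
    (hτ : ∑ i, u i = τ) (hτ0 : τ ≠ 0) (K L : Matrix (Fin (N + 1)) (Fin (N + 1)) ℝ) :
    (S⁻¹ * K * (S⁻¹ * L)).trace
      = ((D N * S * (D N)ᵀ)⁻¹ * (D N * K * (D N)ᵀ) *
          ((D N * S * (D N)ᵀ)⁻¹ * (D N * L * (D N)ᵀ))).trace
      + τ⁻¹ * (u ⬝ᵥ (K * S⁻¹ * L) *ᵥ u) + τ⁻¹ * (u ⬝ᵥ (L * S⁻¹ * K) *ᵥ u)
      - (τ⁻¹ * (u ⬝ᵥ K *ᵥ u)) * (τ⁻¹ * (u ⬝ᵥ L *ᵥ u)) := by
  have hI := inv_eq S u τ hS hZ hu hτ hτ0
  set Z := D N * S * (D N)ᵀ with hZdef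
  set E := (D N)ᵀ * Z⁻¹ * D N with hE
  set F := τ⁻¹ • vecMulVec u u with hF
  set T := S⁻¹ with hT
  have hEF : E = T - F := by rw [hI]; simp
  have h1 : (Z⁻¹ * (D N * K * (D N)ᵀ) * (Z⁻¹ * (D N * L * (D N)ᵀ))).trace
      = (E * K * (E * L)).trace := by
    have e1 : E * K * (E * L)
        = (D N)ᵀ * (Z⁻¹ * D N * K * (D N)ᵀ * Z⁻¹ * D N * L) := by
      rw [hE]; simp only [Matrix.mul_assoc]
    have e2 : Z⁻¹ * (D N * K * (D N)ᵀ) * (Z⁻¹ * (D N * L * (D N)ᵀ))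
        = (Z⁻¹ * D N * K * (D N)ᵀ * Z⁻¹ * D N * L) * (D N)ᵀ := by
      simp only [Matrix.mul_assoc]
    rw [e1, e2, Matrix.trace_mul_comm (D N)ᵀ]
  have hFt : ∀ M : Matrix (Fin (N + 1)) (Fin (N + 1)) ℝ, (F * M).trace = τ⁻¹ * (u ⬝ᵥ M *ᵥ u) := by
    intro M
    rw [hF, Matrix.smul_mul, Matrix.trace_smul, smul_eq_mul, trace_vec]
  have hFF : (F * K * (F * L)).trace = (τ⁻¹ * (u ⬝ᵥ K *ᵥ u)) * (τ⁻¹ * (u ⬝ᵥ L *ᵥ u)) := by
    have e1 : F * K * (F * L) = τ⁻¹ • τ⁻¹ • (vecMulVec u (u ᵥ* K) * vecMulVec u (u ᵥ* L)) := by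
      rw [hF, Matrix.smul_mul, Matrix.smul_mul, Matrix.smul_mul, Matrix.mul_smul,
        Matrix.vecMulVec_mul u u K, Matrix.vecMulVec_mul u u L]
    rw [e1, Matrix.vecMulVec_mul_vecMulVec, Matrix.trace_smul, Matrix.trace_smul,
      Matrix.vecMulVec_smul, Matrix.trace_smul, Matrix.trace_vecMulVec, Matrix.dotProduct_mulVec,
      Matrix.dotProduct_mulVec, dotProduct_comm u (u ᵥ* L)]
    simp only [smul_eq_mul]
    ring
  have h2 : E * K * (E * L) = T * K * (T * L) - F * K * (T * L) - T * K * (F * L)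
      + F * K * (F * L) := by
    rw [hEF]
    noncomm_ring
  have h3 : (F * K * (T * L)).trace = τ⁻¹ * (u ⬝ᵥ (K * T * L) *ᵥ u) := by
    rw [show F * K * (T * L) = F * (K * T * L) by simp only [Matrix.mul_assoc], hFt]
  have h4 : (T * K * (F * L)).trace = τ⁻¹ * (u ⬝ᵥ (L * T * K) *ᵥ u) := by
    rw [Matrix.trace_mul_comm (T * K), show F * L * (T * K) = F * (L * T * K) by
      simp only [Matrix.mul_assoc], hFt]
  rw [h1, h2, Matrix.trace_add, Matrix.trace_sub, Matrix.trace_sub, h3, h4, hFF]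
  ring

end

end Pool.Agent.K4H47.FHRed
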