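import Mathlib
import Pool.Agent.K4H47.FHRed

/-! From the contrasts back to the noise (helper47 for helper25, MP_0e0306_pr): abstract assembly. -/

set_option autoImplicit false

namespace Pool.Agent.K4H47.FHRed

open Matrix Finset Pool.Agent.K4H25.FH

/-- Cauchy-Schwarz from nonnegativity along a line -/
theorem cs_line {A B C : ℝ} (h : ∀ t : ℝ, 0 ≤ A + 2 * t * B + t * t * C) : B ^ 2 ≤ A * C := by
  have h1 : discrim C (2 * B) A ≤ 0 := by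
    apply discrim_le_zero
    intro x
    have := h x
    nlinarith [this]
  unfold discrim at h1
  nlinarith [h1]

/-- Cauchy-Schwarz for the pairing of two families of indices of a positive semidefinite matrix -/
theorem cs_sub {α β : Type} [Fintype α] [Fintype β] [DecidableEq β] (M : Matrix β β ℝ)
    (hM : ∀ x : β → ℝ, 0 ≤ x ⬝ᵥ M *ᵥ x) (hs : ∀ i j, M i j = M j i) (p q : α → β) (a b : α → ℝ) :
    (∑ i, ∑ j, a i * b j * M (p i) (q j)) ^ 2 ≤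
      (∑ i, ∑ j, a i * a j * M (p i) (p j)) * (∑ i, ∑ j, b i * b j * M (q i) (q j)) := by
  apply cs_line
  intro t
  let E : (α → β) → (α → ℝ) → β → ℝ := fun r c m => ∑ i, if r i = m then c i else 0
  have hE : ∀ (r : α → β) (c : α → ℝ) (f : β → ℝ), ∑ m, E r c m * f m = ∑ i, c i * f (r i) := by
    intro r c f
    simp only [E, Finset.sum_mul]
    rw [Finset.sum_comm]
    refine Finset.sum_congr rfl fun i _ => ?_
    simp [ite_mul]
  have hQ : ∀ (r s : α → β) (c d : α → ℝ),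
      (∑ m, E r c m * ∑ n, M m n * E s d n) = ∑ i, ∑ j, c i * d j * M (r i) (s j) := by
    intro r s c d
    rw [hE r c fun m => ∑ n, M m n * E s d n]
    refine Finset.sum_congr rfl fun i _ => ?_
    have := hE s d fun n => M (r i) n
    rw [Finset.sum_congr rfl fun n _ => mul_comm (M (r i) n) (E s d n), this, Finset.mul_sum]
    refine Finset.sum_congr rfl fun j _ => ?_
    ring
  have h1 := hM fun m => E p a m + t * E q b m
  have h2 : (fun m => E p a m + t * E q b m) ⬝ᵥ M *ᵥ (fun m => E p a m + t * E q b m)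
      = (∑ i, ∑ j, a i * a j * M (p i) (p j)) + t * (∑ i, ∑ j, a i * b j * M (p i) (q j))
        + t * (∑ i, ∑ j, b i * a j * M (q i) (p j))
        + t * t * (∑ i, ∑ j, b i * b j * M (q i) (q j)) := by
    rw [← hQ, ← hQ, ← hQ, ← hQ]
    simp only [dotProduct, Matrix.mulVec, Finset.mul_sum, ← Finset.sum_add_distrib]
    refine Finset.sum_congr rfl fun m _ => ?_
    refine Finset.sum_congr rfl fun n _ => ?_
    ring
  have h3 : (∑ i, ∑ j, b i * a j * M (q i) (p j)) = ∑ i, ∑ j, a i * b j * M (p i) (q j) := by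
    rw [Finset.sum_comm]
    refine Finset.sum_congr rfl fun i _ => ?_
    refine Finset.sum_congr rfl fun j _ => ?_
    rw [hs (q j) (p i)]
    ring
  rw [h2, h3] at h1
  linarith

section

variable (g : ℤ → ℝ) (heven : ∀ j, g (-j) = g j)
  (hpsd : ∀ (M : ℕ) (x : Fin M → ℝ), 0 ≤ x ⬝ᵥ (Sg g M) *ᵥ x)

include heven in
theorem Sg_symm (M : ℕ) (i j : Fin M) : Sg g M i j = Sg g M j i := by
  simp only [Sg, Matrix.of_apply]
  rw [← heven]
  congr 1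
  ring

theorem dot_eq {N : ℕ} (K : Matrix (Fin N) (Fin N) ℝ) (a b : Fin N → ℝ) :
    a ⬝ᵥ K *ᵥ b = ∑ i, ∑ j, a i * b j * K i j := by
  simp only [dotProduct, Matrix.mulVec, Finset.mul_sum]
  refine Finset.sum_congr rfl fun i _ => Finset.sum_congr rfl fun j _ => ?_
  ring

include heven hpsd in
/-- the shift is a contraction -/
theorem contr (N k : ℕ) (a b : Fin N → ℝ) :
    (a ⬝ᵥ (Sh g N k) *ᵥ b) ^ 2 ≤ (a ⬝ᵥ (Sg g N) *ᵥ a) * (b ⬝ᵥ (Sg g N) *ᵥ b) := by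
  have h := cs_sub (Sg g (N + k)) (hpsd (N + k)) (Sg_symm g heven (N + k))
    (fun i : Fin N => Fin.addNat i k) (fun j : Fin N => Fin.castAdd k j) a b
  have e1 : ∀ i j : Fin N, Sg g (N + k) (Fin.addNat i k) (Fin.castAdd k j) = Sh g N k i j := by
    intro i j
    simp only [Sg, Sh, Matrix.of_apply, Fin.val_addNat, Fin.val_castAdd]
    congr 1
    push_cast
    ring
  have e2 : ∀ i j : Fin N, Sg g (N + k) (Fin.addNat i k) (Fin.addNat j k) = Sg g N i j := by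
    intro i j
    simp only [Sg, Matrix.of_apply, Fin.val_addNat]
    congr 1
    push_cast
    ring
  have e3 : ∀ i j : Fin N, Sg g (N + k) (Fin.castAdd k i) (Fin.castAdd k j) = Sg g N i j := by
    intro i j
    simp only [Sg, Matrix.of_apply, Fin.val_castAdd]
  simp only [e1, e2, e3] at h
  rw [dot_eq, dot_eq, dot_eq]
  exact h

theorem Sh_zero (N : ℕ) : Sh g N 0 = Sg g N := by
  ext i j
  simp [Sh, Sg]

theorem le_of_sq {x y : ℝ} (hx : 0 ≤ x) (hy : 0 ≤ y) (h : x ^ 2 ≤ x * y) : x ≤ y := by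
  rcases hx.eq_or_lt with h0 | h0
  · rw [← h0]; exact hy
  · nlinarith

include heven hpsd in
/-- the product of two shifts and the projection between them is a contraction -/
theorem contr2 (N k l : ℕ) (hU : IsUnit (Sg g N)) (u : Fin N → ℝ) :
    |u ⬝ᵥ (Sh g N l * (Sg g N)⁻¹ * Sh g N k) *ᵥ u| ≤ u ⬝ᵥ (Sg g N) *ᵥ u := by
  set S := Sg g N with hS
  have hdet : IsUnit S.det := (Matrix.isUnit_iff_isUnit_det S).1 hU
  have hsT : Sᵀ = S := by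
    ext i j
    exact Sg_symm g heven N j i
  set a := S⁻¹ *ᵥ (Sh g N k *ᵥ u) with ha
  set b := S⁻¹ *ᵥ (u ᵥ* Sh g N l) with hb
  have hSa : S *ᵥ a = Sh g N k *ᵥ u := by
    rw [ha, Matrix.mulVec_mulVec, Matrix.mul_nonsing_inv _ hdet, Matrix.one_mulVec]
  have hSb : S *ᵥ b = u ᵥ* Sh g N l := by
    rw [hb, Matrix.mulVec_mulVec, Matrix.mul_nonsing_inv _ hdet, Matrix.one_mulVec]
  have hu0 : 0 ≤ u ⬝ᵥ S *ᵥ u := hpsd N u
  have ha0 : 0 ≤ a ⬝ᵥ S *ᵥ a := hpsd N a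
  have hb0 : 0 ≤ b ⬝ᵥ S *ᵥ b := hpsd N b
  have h1 : a ⬝ᵥ S *ᵥ a ≤ u ⬝ᵥ S *ᵥ u := by
    apply le_of_sq ha0 hu0
    have := contr g heven hpsd N k a u
    rw [← hSa] at this
    exact this
  have h2 : b ⬝ᵥ S *ᵥ b ≤ u ⬝ᵥ S *ᵥ u := by
    apply le_of_sq hb0 hu0
    have := contr g heven hpsd N l u b
    rw [Matrix.dotProduct_mulVec, ← hSb, dotProduct_comm (S *ᵥ b) b] at this
    rw [mul_comm]
    exact this
  have h3 : u ⬝ᵥ (Sh g N l * S⁻¹ * Sh g N k) *ᵥ u = b ⬝ᵥ S *ᵥ a := by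
    have e1 : (Sh g N l * S⁻¹ * Sh g N k) *ᵥ u = Sh g N l *ᵥ a := by
      rw [ha, Matrix.mulVec_mulVec, Matrix.mulVec_mulVec, Matrix.mul_assoc]
    have e2 : (S *ᵥ b) ⬝ᵥ a = b ⬝ᵥ S *ᵥ a := by
      rw [Matrix.dotProduct_mulVec b S a, ← Matrix.vecMul_transpose, hsT]
    rw [e1, Matrix.dotProduct_mulVec, ← hSb, e2]
  have h4 : (b ⬝ᵥ S *ᵥ a) ^ 2 ≤ (b ⬝ᵥ S *ᵥ b) * (a ⬝ᵥ S *ᵥ a) := by
    have := contr g heven hpsd N 0 b a
    rw [Sh_zero] at this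
    exact this
  rw [h3]
  apply abs_le_of_sq_le_sq _ hu0
  calc (b ⬝ᵥ S *ᵥ a) ^ 2 ≤ (b ⬝ᵥ S *ᵥ b) * (a ⬝ᵥ S *ᵥ a) := h4
    _ ≤ (u ⬝ᵥ S *ᵥ u) * (u ⬝ᵥ S *ᵥ u) := mul_le_mul h2 h1 ha0 hu0
    _ = (u ⬝ᵥ S *ᵥ u) ^ 2 := by ring

/-- the contrast kernel -/
def ctr (g : ℤ → ℝ) : ℤ → ℝ := fun j => 2 * g j - g (j + 1) - g (j - 1)

include heven hpsd in
/-- the assembly: bounds for the contrasts give bounds for the noise -/
theorem asm (C : ℝ) (hU : ∀ M, IsUnit (Sg g M)) (hZ : ∀ M, IsUnit (Sg (ctr g) M))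
    (h1 : ∀ M k, 1 ≤ k → -C ≤ ((Sg (ctr g) M)⁻¹ * Sh (ctr g) M k).trace ∧
      ((Sg (ctr g) M)⁻¹ * Sh (ctr g) M k).trace ≤ 0)
    (h2 : ∀ M k l, 1 ≤ k → 1 ≤ l →
      -(2 * C) ≤ ((Sg (ctr g) M)⁻¹ * Sh (ctr g) M k * ((Sg (ctr g) M)⁻¹ * Sh (ctr g) M l)).trace ∧
      ((Sg (ctr g) M)⁻¹ * Sh (ctr g) M k * ((Sg (ctr g) M)⁻¹ * Sh (ctr g) M l)).trace ≤ C)
    (N k l : ℕ) (hN : 1 ≤ N) (hk : 1 ≤ k) (hl : 1 ≤ l) :
    (-(C + 1) ≤ ((Sg g N)⁻¹ * Sh g N k).trace ∧ ((Sg g N)⁻¹ * Sh g N k).trace ≤ 1) ∧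
    (-(2 * C + 3) ≤ ((Sg g N)⁻¹ * Sh g N k * ((Sg g N)⁻¹ * Sh g N l)).trace ∧
      ((Sg g N)⁻¹ * Sh g N k * ((Sg g N)⁻¹ * Sh g N l)).trace ≤ C + 3) := by
  obtain ⟨n, rfl⟩ : ∃ n, N = n + 1 := ⟨N - 1, by omega⟩
  set S := Sg g (n + 1) with hS
  have hdet : IsUnit S.det := (Matrix.isUnit_iff_isUnit_det S).1 (hU (n + 1))
  have hsT : Sᵀ = S := by
    ext i j
    exact Sg_symm g heven (n + 1) j i
  have hDS : D n * S * (D n)ᵀ = Sg (ctr g) n := D_Sg g n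
  set u := S⁻¹ *ᵥ (fun _ => (1 : ℝ)) with hu
  have hSu : S *ᵥ u = fun _ => 1 := by
    rw [hu, Matrix.mulVec_mulVec, Matrix.mul_nonsing_inv _ hdet, Matrix.one_mulVec]
  set τ := ∑ i, u i with hτ
  have hτu : u ⬝ᵥ S *ᵥ u = τ := by
    rw [hSu, hτ]
    simp [dotProduct]
  have hτnn : 0 ≤ τ := by rw [← hτu]; exact hpsd _ u
  have hτ0 : τ ≠ 0 := by
    intro h0
    have := contr g heven hpsd (n + 1) 0 (Pi.single 0 1) u
    rw [Sh_zero, ← hS, hτu, h0, mul_zero, hSu] at this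
    simp [dotProduct] at this
    linarith
  have hτpos : 0 < τ := lt_of_le_of_ne hτnn (Ne.symm hτ0)
  have hZu : IsUnit (D n * S * (D n)ᵀ) := by rw [hDS]; exact hZ n
  have hb1 : ∀ j : ℕ, |τ⁻¹ * (u ⬝ᵥ Sh g (n + 1) j *ᵥ u)| ≤ 1 := by
    intro j
    have h := contr g heven hpsd (n + 1) j u u
    rw [← hS, hτu] at h
    have h' : |u ⬝ᵥ Sh g (n + 1) j *ᵥ u| ≤ τ := by
      apply abs_le_of_sq_le_sq _ hτnn
      rw [sq τ]
      exact h
    rw [abs_mul, abs_of_pos (inv_pos.2 hτpos), inv_mul_le_iff₀ hτpos, mul_one]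
    exact h'
  have hb2 : ∀ i j : ℕ, |τ⁻¹ * (u ⬝ᵥ (Sh g (n + 1) i * S⁻¹ * Sh g (n + 1) j) *ᵥ u)| ≤ 1 := by
    intro i j
    have h := contr2 g heven hpsd (n + 1) j i (hU _) u
    rw [← hS, hτu] at h
    rw [abs_mul, abs_of_pos (inv_pos.2 hτpos), inv_mul_le_iff₀ hτpos, mul_one]
    exact h
  have hDk : ∀ j : ℕ, D n * Sh g (n + 1) j * (D n)ᵀ = Sh (ctr g) n j := fun j => D_Sh g n j
  constructor
  · have h := trace_one S u τ hsT hZu hSu rfl hτ0 (Sh g (n + 1) k)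
    rw [hDS, hDk] at h
    rw [h]
    have e1 := h1 n k hk
    have e2 := abs_le.1 (hb1 k)
    constructor <;> linarith [e1.1, e1.2, e2.1, e2.2]
  · have h := trace_two S u τ hsT hZu hSu rfl hτ0 (Sh g (n + 1) k) (Sh g (n + 1) l)
    rw [hDS, hDk, hDk] at h
    rw [h]
    have e1 := h2 n k l hk hl
    have e2 := abs_le.1 (hb2 k l)
    have e3 := abs_le.1 (hb2 l k)
    have e4 : |(τ⁻¹ * (u ⬝ᵥ Sh g (n + 1) k *ᵥ u)) * (τ⁻¹ * (u ⬝ᵥ Sh g (n + 1) l *ᵥ u))| ≤ 1 := by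
      rw [abs_mul]
      exact mul_le_one₀ (hb1 k) (abs_nonneg _) (hb1 l)
    have e5 := abs_le.1 e4
    constructor <;> linarith [e1.1, e1.2, e2.1, e2.2, e3.1, e3.2, e5.1, e5.2]

end

end Pool.Agent.K4H47.FHRed
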